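import Pool.Agent.Lib.MP_945667_co.H22Top

namespace Pool.Agent.Results.MP_945667_co.OrderUniform

open Pool.Agent.Lib.MP_945667_co

/-- The crossing number of Hanoi graphs with at least four pegs, up to an absolute constant
factor. -/
theorem result (p d : ℕ) (hp : 4 ≤ p) (hd : p < d) :
    p ^ 2 * ∑ j ∈ Finset.range d, p ^ j * (p - 2) ^ (2 * (d - j)) ≤
        min (3600 * p ^ 4) (10 ^ 14) * crossingNumber (hanoi p d) ∧
      crossingNumber (hanoi p d) ≤
        16 * (p ^ 2 * ∑ j ∈ Finset.range d, p ^ j * (p - 2) ^ (2 * (d - j))) := by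
  refine ⟨?_, (order hp hd).2.trans_eq (mul_assoc _ _ _)⟩
  rcases min_choice (3600 * p ^ 4) (10 ^ 14) with h | h <;> rw [h]
  · exact (Nat.mul_le_mul_left (p ^ 2) (order hp hd).1).trans_eq (by ring)
  · exact uniform hp hd

end Pool.Agent.Results.MP_945667_co.OrderUniform
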